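import Mathlib
import Pool.Agent.Helper36.QC.Final1

set_option autoImplicit false

universe u

namespace Pool.Agent.Results.MP_1c0613_al.AbelianMalnormal

open Pool.Agent.Helper36.QC

/-- Let `G` be a simple quasi-Chernikov group and let `a, b` be non-trivial elements which are not
both involutions. If one of them lies in an abelian proper subgroup `K` of `G` which is maximal or
malnormal, then `⟨a, g⁻¹ b g⟩ = G` for infinitely many `g`. -/
theorem result (G : Type u) [Group G] [IsSimpleGroup G] (hG : IsQuasiChernikov G) (a b : G)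
    (ha : a ≠ 1) (hb : b ≠ 1) (hab : a ^ 2 ≠ 1 ∨ b ^ 2 ≠ 1) (K : Subgroup G) (hKt : K ≠ ⊤)
    (hKc : ∀ x ∈ K, ∀ y ∈ K, x * y = y * x) (hK : IsCoatom K ∨ Malnormal K)
    (hmem : a ∈ K ∨ b ∈ K) :
    {g : G | Subgroup.closure ({a, g⁻¹ * b * g} : Set G) = ⊤}.Infinite := by
  have := hG.infinite
  have hK1 : K ≠ ⊥ := by
    rintro rfl
    rcases hmem with h | h
    · exact ha (Subgroup.mem_bot.1 h)
    · exact hb (Subgroup.mem_bot.1 h)
  have hM : Malnormal K := by
    rcases hK with h | h
    · exact malnormal_of_isCoatom h hKc hK1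
    · exact h
  exact good_infinite hG hKt hM hKc hmem ha hb hab

end Pool.Agent.Results.MP_1c0613_al.AbelianMalnormal
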