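import Mathlib
import Pool.Agent.Helper24.QC.Reps

set_option autoImplicit false

universe u

namespace Pool.Agent.Results.MP_1c0613_al.LargeOrder

open Pool.Agent.Helper36.QC Pool.Agent.Helper24.QC

/-- Let `G` be a finitely generated simple quasi-Chernikov group and let `H`, `K` be proper
subgroups of `G`. There is `n` such that for all `a ≠ 1` in `K` and all `b` in `H` of order greater
than `n`, `⟨a, g⁻¹ b g⟩ = G` for infinitely many `g` and `⟨b, g⁻¹ a g⟩ = G` for infinitely
many `g`. -/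
theorem result (G : Type u) [Group G] [IsSimpleGroup G] [Group.FG G] (hG : IsQuasiChernikov G)
    (H K : Subgroup G) (hH : H ≠ ⊤) (hK : K ≠ ⊤) :
    ∃ n : ℕ, ∀ a ∈ K, a ≠ 1 → ∀ b ∈ H, n < orderOf b →
      {g : G | Subgroup.closure ({a, g⁻¹ * b * g} : Set G) = ⊤}.Infinite ∧
      {g : G | Subgroup.closure ({b, g⁻¹ * a * g} : Set G) = ⊤}.Infinite := by
  obtain ⟨n, hn⟩ := good_of_large_uniform hG hH hK
  exact ⟨n, fun a ha ha1 b hb hbo => ⟨hn a ha ha1 b hb hbo, good_symm (hn a ha ha1 b hb hbo)⟩⟩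

end Pool.Agent.Results.MP_1c0613_al.LargeOrder
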