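import Mathlib
import Pool.Agent.Helper24.QC.FinC

set_option autoImplicit false

universe u

namespace Pool.Agent.Results.MP_1c0613_al.NormalCentralized

open Pool.Agent.Helper36.QC Pool.Agent.Helper24.QC

/-- Let `G` be a simple quasi-Chernikov group and let `a, b` be non-trivial elements such that, for
every `g` for which `⟨a, g⁻¹ b g⟩` is finite, there is a non-trivial finite subgroup `Z` of `G`
which is centralized by `a` and normalized by `g⁻¹ b g` (for instance, a normal subgroup of
`⟨a, g⁻¹ b g⟩` centralized by `a`). If the centralizer of `a` is tame (for instance finite), then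
`⟨a, g⁻¹ b g⟩ = G` for infinitely many `g` and `⟨b, g⁻¹ a g⟩ = G` for infinitely many `g`. -/
theorem result (G : Type u) [Group G] [IsSimpleGroup G] (hG : IsQuasiChernikov G) (a b : G)
    (ha : a ≠ 1) (hb : b ≠ 1)
    (hz : ∀ g : G, Finite (Subgroup.closure ({a, g⁻¹ * b * g} : Set G)) →
      ∃ Z : Subgroup G, Z ≠ ⊥ ∧ Finite Z ∧ Z ≤ Subgroup.centralizer ({a} : Set G) ∧
        ∀ x ∈ Z, (g⁻¹ * b * g) * x * (g⁻¹ * b * g)⁻¹ ∈ Z)
    (hta : Tame (Subgroup.centralizer ({a} : Set G))) :
    {g : G | Subgroup.closure ({a, g⁻¹ * b * g} : Set G) = ⊤}.Infinite ∧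
      {g : G | Subgroup.closure ({b, g⁻¹ * a * g} : Set G) = ⊤}.Infinite := by
  have hinf := hG.infinite
  have hn : NormCond a b := by
    intro g hg
    obtain ⟨Z, hZ1, hZf, hZC, hZn⟩ := hz g hg
    refine ⟨Z, hZ1, hZf, hZC, ?_⟩
    have hle : Z ≤ cjg Z (g⁻¹ * b * g) := fun x hx => hZn x hx
    have hcard : Nat.card (cjg Z (g⁻¹ * b * g)) ≤ Nat.card Z :=
      Nat.card_le_card_of_injective (fun t : cjg Z (g⁻¹ * b * g) =>
        (⟨(g⁻¹ * b * g) * t * (g⁻¹ * b * g)⁻¹, t.2⟩ : Z)) (by
        intro s t hst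
        have h3 := congrArg Subtype.val hst
        exact Subtype.ext (mul_left_cancel (mul_right_cancel h3)))
    have hfin : Finite (cjg Z (g⁻¹ * b * g)) :=
      Finite.of_injective (fun t : cjg Z (g⁻¹ * b * g) =>
        (⟨(g⁻¹ * b * g) * t * (g⁻¹ * b * g)⁻¹, t.2⟩ : Z)) (by
        intro s t hst
        have h3 := congrArg Subtype.val hst
        exact Subtype.ext (mul_left_cancel (mul_right_cancel h3)))
    exact (Subgroup.eq_of_le_of_card_ge hle hcard).symm
  have hc := centreByFinite_of_tame hG (centralizer_ne_top ha) hta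
  exact ⟨good_of_cbf hG ha hb hn hc, good_symm (good_of_cbf hG ha hb hn hc)⟩

end Pool.Agent.Results.MP_1c0613_al.NormalCentralized
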