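import Mathlib
import Pool.Agent.Helper24.QC.NilMain

set_option autoImplicit false

universe u

namespace Pool.Agent.Results.MP_1c0613_al.NormalSylow

open Pool.Agent.Helper36.QC Pool.Agent.Helper24.QC

/-- Let `G` be a simple quasi-Chernikov group and let `p` be a prime such that every finite
subgroup of `G` has a normal Sylow `p`-subgroup (for instance, `G` is a `p`-group, or all finite
subgroups of `G` are nilpotent). Then for every `a` in `G` of order divisible by `p` and every
`b ≠ 1` in `G`, `⟨a, g⁻¹ b g⟩ = G` for infinitely many `g` and `⟨b, g⁻¹ a g⟩ = G` for infinitely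
many `g`. -/
theorem result (G : Type u) [Group G] [IsSimpleGroup G] (hG : IsQuasiChernikov G)
    (p : ℕ) (hp : p.Prime)
    (hS : ∀ F : Subgroup G, Finite F → ∀ S : Sylow p F, (S : Subgroup F).Normal)
    (a b : G) (ha : p ∣ orderOf a) (hb : b ≠ 1) :
    {g : G | Subgroup.closure ({a, g⁻¹ * b * g} : Set G) = ⊤}.Infinite ∧
      {g : G | Subgroup.closure ({b, g⁻¹ * a * g} : Set G) = ⊤}.Infinite :=
  ⟨good_of_pcl hG hS hp ha hb, good_symm (good_of_pcl hG hS hp ha hb)⟩

end Pool.Agent.Results.MP_1c0613_al.NormalSylow
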